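import Pool.Agent.H639R3.Tower

set_option autoImplicit false

/-!
# MP_6895b2_nt, Q1: the degree of the splitting field of `L(χ_n, s)` over `ℚ_p` tends to infinity

Idea: the coefficients of `L(χ_n, s)` lie in its splitting field.  If `m` is the least degree of a
closed point of `U` with nontrivial Frobenius element, the coefficient of `s ^ m` is, up to an
integer, the sum `∑ ζ ^ (a x)` over the closed points `x` of degree `m`, where `a x` in `ℤ_p` is the
Frobenius element and `ζ` a primitive `p ^ n`-th root of unity.  Linear relations between `p`-power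
roots of unity show that at most a constant number of elements of the Galois group of
`ℚ_p(ζ) / ℚ_p` fixes this sum.  (If all Frobenius elements were trivial, the Euler product would not
be a polynomial.)
-/

namespace Pool.Agent.Results.MP_6895b2_nt.SplittingDegree

open Pool.Agent.H639R3

/-- For every `ℤ_p`-tower of curves over a finite field of characteristic `p`: there is a constant
`c > 0` with `p ^ n ≤ c * [L_{p,n} : ℚ_p]` for every `n` and every character `χ` of exact order
`p ^ n`, where `L_{p,n}` is the splitting field of `L(χ, s)` over `ℚ_p` inside `ℂ_p`; in particular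
`[L_{p,n} : ℚ_p]` tends to infinity with `n`. -/
theorem result (p : ℕ) [Fact p.Prime] (k K L : Type) [Field k] [Finite k] [CharP k p]
    [Field K] [Field L] [Algebra k K] [Algebra K L] [Algebra k L] [IsScalarTower k K L]
    (T : ZpTower p k K L) :
    (∃ c : ℕ, 0 < c ∧ ∀ (n : ℕ) (χ : (L ≃ₐ[K] L) →* (ℂ_[p])ˣ), orderOf χ = p ^ n →
      ((p ^ n : ℕ) : Cardinal) ≤
        (c : Cardinal) * Module.rank ℚ_[p] (splittingField ℚ_[p] (T.lFunction χ))) ∧
    ∀ χ : ℕ → ((L ≃ₐ[K] L) →* (ℂ_[p])ˣ), (∀ n, orderOf (χ n) = p ^ n) →
      ∀ B : ℕ, ∃ N : ℕ, ∀ n, N ≤ n →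
        (B : Cardinal) ≤ Module.rank ℚ_[p] (splittingField ℚ_[p] (T.lFunction (χ n))) :=
  tower_bound p k K L T ℂ_[p]

end Pool.Agent.Results.MP_6895b2_nt.SplittingDegree
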